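import Pool.Agent.Helper70.DK.Defs2

/-! # Module AUT: digit systems from sticky maps with few patterns -/

set_option autoImplicit false

namespace Pool.Agent.Helper70.DK

open Finset

section

theorem aut_bpos {b : ℕ} (hb : 2 ≤ b) (l : ℕ) : (0 : ℝ) < (b : ℝ) ^ l := by
  have : (0 : ℝ) < b := by exact_mod_cast (by omega : 0 < b)
  positivity

theorem aut_cube_zero (m : ℕ) : (fun _ => 0 : Fin m → ℝ) ∈ cube m := fun _ => ⟨le_refl _, one_pos⟩

/-- a lattice point of `[0, b ^ l) ^ m` plus a point of the unit cube -/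
theorem aut_cube {m b l : ℕ} (hb : 2 ≤ b) {w : Fin m → ℤ} (hw : w ∈ grid m (b ^ l))
    {y : Fin m → ℝ} (hy : y ∈ cube m) : (fun c => (y c + w c) / (b : ℝ) ^ l) ∈ cube m := by
  intro c
  have h0 := aut_bpos hb l
  obtain ⟨h1, h2⟩ := hw c
  obtain ⟨h3, h4⟩ := hy c
  have h5 : (0 : ℝ) ≤ w c := by exact_mod_cast h1
  have h6 : (w c : ℝ) + 1 ≤ (b : ℝ) ^ l := by
    have : w c + 1 ≤ ((b ^ l : ℕ) : ℤ) := h2
    exact_mod_cast this
  refine ⟨by positivity, ?_⟩
  rw [div_lt_one h0]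
  linarith

theorem aut_cube' {m b l : ℕ} (hb : 2 ≤ b) {w : Fin m → ℤ} (hw : w ∈ grid m (b ^ l)) :
    (fun c => (w c : ℝ) / (b : ℝ) ^ l) ∈ cube m := by
  have := aut_cube hb hw (aut_cube_zero m)
  simpa using this

theorem aut_grid {m b n l : ℕ} {i w : Fin m → ℤ} (hi : i ∈ grid m (b ^ n))
    (hw : w ∈ grid m (b ^ l)) : (fun c => (b : ℤ) ^ l * i c + w c) ∈ grid m (b ^ (n + l)) := by
  intro c
  obtain ⟨h1, h2⟩ := hi c
  obtain ⟨h3, h4⟩ := hw c
  push_cast at h2 h4 ⊢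
  have hb : (0 : ℤ) ≤ (b : ℤ) ^ l := by positivity
  refine ⟨by positivity, ?_⟩
  have h5 : (b : ℤ) ^ l * (i c + 1) ≤ (b : ℤ) ^ l * (b : ℤ) ^ n :=
    mul_le_mul_of_nonneg_left h2 hb
  rw [pow_add]
  nlinarith

theorem aut_pat {m : ℕ} (a : (Fin m → ℝ) → Fin m → ℝ) (b n : ℕ) (i : Fin m → ℤ) {x : Fin m → ℝ}
    (hx : x ∈ cube m) (c : Fin m) : pat a b n i x c =
      (b : ℝ) ^ n * (a (fun c' => (x c' + i c') / (b : ℝ) ^ n) c
        - a (fun c' => (i c' : ℝ) / (b : ℝ) ^ n) c) := by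
  unfold pat
  rw [if_pos hx]

/-- the pattern of a subcube -/
theorem aut_rel {m : ℕ} (a : (Fin m → ℝ) → Fin m → ℝ) {b : ℕ} (n l : ℕ) (hb : 2 ≤ b)
    (i : Fin m → ℤ) {w : Fin m → ℤ} (hw : w ∈ grid m (b ^ l)) {y : Fin m → ℝ} (hy : y ∈ cube m)
    (c : Fin m) :
    pat a b (n + l) (fun c => (b : ℤ) ^ l * i c + w c) y c = (b : ℝ) ^ l *
      (pat a b n i (fun c => (y c + w c) / (b : ℝ) ^ l) c
        - pat a b n i (fun c => (w c : ℝ) / (b : ℝ) ^ l) c) := by
  have h0 := aut_bpos hb l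
  have h1 := aut_bpos hb n
  rw [aut_pat a b (n + l) _ hy, aut_pat a b n i (aut_cube hb hw hy),
    aut_pat a b n i (aut_cube' hb hw)]
  have e1 : (fun c' => (y c' + (((b : ℤ) ^ l * i c' + w c' : ℤ) : ℝ)) / (b : ℝ) ^ (n + l))
      = fun c' => ((y c' + w c') / (b : ℝ) ^ l + i c') / (b : ℝ) ^ n := by
    funext c'
    push_cast
    rw [pow_add]
    field_simp
    ring
  have e2 : (fun c' => (((b : ℤ) ^ l * i c' + w c' : ℤ) : ℝ) / (b : ℝ) ^ (n + l))
      = fun c' => ((w c' : ℝ) / (b : ℝ) ^ l + i c') / (b : ℝ) ^ n := by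
    funext c'
    push_cast
    rw [pow_add]
    field_simp
    ring
  rw [e1, e2, pow_add]
  ring

theorem aut_rel_fun {m : ℕ} (a : (Fin m → ℝ) → Fin m → ℝ) {b : ℕ} (n l : ℕ) (hb : 2 ≤ b)
    {i i' : Fin m → ℤ} (h : pat a b n i = pat a b n i') {w : Fin m → ℤ}
    (hw : w ∈ grid m (b ^ l)) :
    pat a b (n + l) (fun c => (b : ℤ) ^ l * i c + w c)
      = pat a b (n + l) (fun c => (b : ℤ) ^ l * i' c + w c) := by
  funext y c
  by_cases hy : y ∈ cube m
  · rw [aut_rel a n l hb i hw hy, aut_rel a n l hb i' hw hy, h]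
  · unfold pat
    rw [if_neg hy, if_neg hy]

/-- the words with digits at most `N - 1` -/
noncomputable def aut_W (m N : ℕ) : Finset (Fin m → ℤ) :=
  Fintype.piFinset fun _ => (Finset.range N).map Nat.castEmbedding

theorem aut_W_card (m N : ℕ) : (aut_W m N).card = N ^ m := by
  unfold aut_W
  rw [Fintype.card_piFinset]
  simp

theorem aut_W_mem {m N : ℕ} {w : Fin m → ℤ} (h : w ∈ aut_W m N) (c : Fin m) :
    0 ≤ w c ∧ w c < (N : ℤ) := by
  unfold aut_W at h
  rw [Fintype.mem_piFinset] at h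
  have h1 := h c
  rw [Finset.mem_map] at h1
  obtain ⟨k, hk, hk2⟩ := h1
  rw [Finset.mem_range] at hk
  rw [← hk2]
  simp only [Nat.castEmbedding_apply]
  exact ⟨by positivity, by exact_mod_cast hk⟩

theorem aut_grid_finite (m N : ℕ) : (grid m N).Finite := by
  have h : grid m N ⊆ Set.pi Set.univ (fun _ : Fin m => Set.Ico (0 : ℤ) N) := by
    intro w hw c _
    exact hw c
  exact (Set.Finite.pi' (fun _ => Set.finite_Ico (0 : ℤ) N)).subset (fun w hw c => hw c)

theorem aut_step {m b r L K : ℕ} {a : (Fin m → ℝ) → Fin m → ℝ} (hb : 2 ≤ b)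
    (hK : 1 ≤ K) (hKr : K * r ≤ (b ^ L - 1) ^ m) (hF : FewPat a b r) (n : ℕ) (i : Fin m → ℤ)
    (hi : i ∈ grid m (b ^ n)) :
    ∃ d : Fin K → Fin m → ℤ, (∀ s c, 0 ≤ d s c ∧ d s c < (b : ℤ) ^ L - 1) ∧
      Function.Injective d ∧ ∀ s s', pat a b (n + L) (fun c => (b : ℤ) ^ L * i c + d s c)
        = pat a b (n + L) (fun c => (b : ℤ) ^ L * i c + d s' c) := by
  classical
  have hfin : (pat a b (n + L) '' grid m (b ^ (n + L))).Finite := (aut_grid_finite m _).image _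
  set T := hfin.toFinset with hT
  have hTc : T.card ≤ r := by
    have := hF (n + L)
    rwa [Set.ncard_eq_toFinset_card _ hfin] at this
  have hB1 : 1 ≤ b ^ L := Nat.one_le_pow _ _ (by omega)
  have hWg : ∀ w ∈ aut_W m (b ^ L - 1), w ∈ grid m (b ^ L) := by
    intro w hw c
    obtain ⟨h1, h2⟩ := aut_W_mem hw c
    refine ⟨h1, ?_⟩
    push_cast [hB1] at h2 ⊢
    linarith
  set f : (Fin m → ℤ) → ((Fin m → ℝ) → Fin m → ℝ) :=
    fun w => pat a b (n + L) (fun c => (b : ℤ) ^ L * i c + w c) with hf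
  have hmaps : ∀ w ∈ aut_W m (b ^ L - 1), f w ∈ T := by
    intro w hw
    rw [hT, Set.Finite.mem_toFinset]
    exact ⟨_, aut_grid hi (hWg w hw), rfl⟩
  have hTne : T.Nonempty := by
    have h0 : (fun _ => 0 : Fin m → ℤ) ∈ grid m (b ^ (n + L)) := by
      intro c
      refine ⟨le_refl _, ?_⟩
      have h9 : 0 < b ^ (n + L) := by positivity
      change (0 : ℤ) < ((b ^ (n + L) : ℕ) : ℤ)
      exact_mod_cast h9
    refine ⟨pat a b (n + L) (fun _ => 0), ?_⟩
    rw [hT, Set.Finite.mem_toFinset]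
    exact ⟨_, h0, rfl⟩
  have hmul : T.card * K ≤ (aut_W m (b ^ L - 1)).card := by
    rw [aut_W_card]
    calc T.card * K ≤ r * K := Nat.mul_le_mul_right _ hTc
      _ = K * r := Nat.mul_comm _ _
      _ ≤ _ := hKr
  obtain ⟨p, -, hp⟩ := Finset.exists_le_card_fiber_of_mul_le_card_of_maps_to hmaps hTne hmul
  obtain ⟨S, hS1, hS2⟩ := Finset.exists_subset_card_eq hp
  set e := S.equivFinOfCardEq hS2 with he
  refine ⟨fun s => (e.symm s).1, ?_, ?_, ?_⟩
  · intro s c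
    have h1 := hS1 (e.symm s).2
    rw [Finset.mem_filter] at h1
    have h2 := aut_W_mem h1.1 c
    push_cast [hB1] at h2
    exact h2
  · intro s s' h
    exact e.symm.injective (Subtype.ext h)
  · intro s s'
    have h1 := hS1 (e.symm s).2
    have h2 := hS1 (e.symm s').2
    rw [Finset.mem_filter] at h1 h2
    exact h1.2.trans h2.2.symm

/-- digit series -/
theorem aut_tail {B : ℝ} (hB : 2 ≤ B) (d : ℕ → ℤ) (h : ∀ j, 0 ≤ d j ∧ (d j : ℝ) ≤ B - 2) :
    Summable (fun j => (d j : ℝ) / B ^ (j + 1)) ∧ 0 ≤ ∑' j, (d j : ℝ) / B ^ (j + 1) ∧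
      ∑' j, (d j : ℝ) / B ^ (j + 1) < 1 := by
  have hB0 : 0 < B := by linarith
  have h1 : ∀ j, 0 ≤ (d j : ℝ) / B ^ (j + 1) := by
    intro j
    have : (0 : ℝ) ≤ d j := by exact_mod_cast (h j).1
    positivity
  have h2 : ∀ j, (d j : ℝ) / B ^ (j + 1) ≤ (B - 2) / B * (1 / B) ^ j := by
    intro j
    have h3 : (B - 2) / B * (1 / B) ^ j = (B - 2) / B ^ (j + 1) := by
      rw [pow_succ, div_pow, one_pow]
      field_simp
    rw [h3]
    exact div_le_div_of_nonneg_right (h j).2 (by positivity)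
  have hlt : 1 / B < 1 := by
    rw [div_lt_one hB0]
    linarith
  have hs : Summable (fun j : ℕ => (B - 2) / B * (1 / B) ^ j) :=
    (summable_geometric_of_lt_one (by positivity) hlt).mul_left _
  have hsum := Summable.of_nonneg_of_le h1 h2 hs
  refine ⟨hsum, tsum_nonneg h1, ?_⟩
  refine lt_of_le_of_lt (hsum.tsum_le_tsum h2 hs) ?_
  rw [tsum_mul_left, tsum_geometric_of_lt_one (by positivity) hlt]
  have hB1 : B - 1 ≠ 0 := by linarith
  have h4 : (B - 2) / B * (1 - 1 / B)⁻¹ = (B - 2) / (B - 1) := by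
    have : (1 - 1 / B) = (B - 1) / B := by field_simp
    rw [this]
    field_simp
  rw [h4, div_lt_one (by linarith)]
  linarith

theorem aut_split {B : ℝ} (hB : 2 ≤ B) (d : ℕ → ℤ) (h : ∀ j, 0 ≤ d j ∧ (d j : ℝ) ≤ B - 2)
    (N : ℕ) : ∑' j, (d j : ℝ) / B ^ (j + 1) = ∑ j ∈ range N, (d j : ℝ) / B ^ (j + 1)
      + (∑' j, (d (j + N) : ℝ) / B ^ (j + 1)) / B ^ N := by
  have hB0 : 0 < B := by linarith
  rw [← (aut_tail hB d h).1.sum_add_tsum_nat_add N, ← tsum_div_const]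
  congr 1
  apply tsum_congr
  intro j
  rw [div_div, ← pow_add]
  congr 2
  ring

/-- finitely many increments of length `l` -/
theorem aut_inc {m b : ℕ} {a : (Fin m → ℝ) → Fin m → ℝ} (hb : 2 ≤ b) (hF : FinInc a b) (l : ℕ) :
    {v : Fin m → ℝ | ∃ n, ∃ i ∈ grid m (b ^ n), ∃ w ∈ grid m (b ^ l),
      v = pat a b n i (fun c => (w c : ℝ) / (b : ℝ) ^ l)}.Finite := by
  induction l with
  | zero =>
    refine (Set.finite_singleton (fun _ => 0 : Fin m → ℝ)).subset ?_
    rintro v ⟨n, i, hi, w, hw, rfl⟩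
    have hw0 : w = fun _ => 0 := by
      funext c
      obtain ⟨h1, h2⟩ := hw c
      simp only [pow_zero, Nat.cast_one] at h2
      omega
    rw [Set.mem_singleton_iff]
    funext c
    have h0 : (fun c => (w c : ℝ) / (b : ℝ) ^ 0) = fun _ => (0 : ℝ) := by
      funext c
      rw [hw0]
      simp
    rw [h0, aut_pat a b n i (aut_cube_zero m)]
    simp
  | succ l ih =>
    have hfin := (ih.prod hF).image (fun p : (Fin m → ℝ) × (Fin m → ℝ) =>
      (fun c => p.1 c + p.2 c / (b : ℝ) ^ l))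
    refine hfin.subset ?_
    rintro v ⟨n, i, hi, w, hw, rfl⟩
    have hb0 : (0 : ℤ) < b := by exact_mod_cast (by omega : 0 < b)
    set w' : Fin m → ℤ := fun c => w c / b with hw'
    set d : Fin m → ℤ := fun c => w c % b with hd
    have hwd : ∀ c, w c = b * w' c + d c := fun c => (Int.mul_ediv_add_emod (w c) b).symm
    have hdg : d ∈ grid m b := fun c => ⟨Int.emod_nonneg _ hb0.ne', Int.emod_lt_of_pos _ hb0⟩
    have hw'g : w' ∈ grid m (b ^ l) := by
      intro c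
      obtain ⟨h1, h2⟩ := hw c
      refine ⟨Int.ediv_nonneg h1 hb0.le, ?_⟩
      apply Int.ediv_lt_of_lt_mul hb0
      push_cast at h2 ⊢
      rw [pow_succ] at h2
      exact h2
    have hdg1 : d ∈ grid m (b ^ 1) := by rwa [pow_one]
    have hy : (fun c => (d c : ℝ) / (b : ℝ)) ∈ cube m := by
      have := aut_cube' hb hdg1
      simpa using this
    refine ⟨(pat a b n i (fun c => (w' c : ℝ) / (b : ℝ) ^ l),
      pat a b (n + l) (fun c => (b : ℤ) ^ l * i c + w' c) (fun c => (d c : ℝ) / (b : ℝ))), ?_, ?_⟩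
    · exact ⟨⟨n, i, hi, w', hw'g, rfl⟩, ⟨n + l, _, aut_grid hi hw'g, d, hdg, rfl⟩⟩
    · funext c
      have hbl := aut_bpos hb l
      have hbr : (0 : ℝ) < b := by exact_mod_cast (by omega : 0 < b)
      simp only
      rw [aut_rel a n l hb i hw'g hy]
      have e1 : (fun c => ((d c : ℝ) / (b : ℝ) + w' c) / (b : ℝ) ^ l)
          = fun c => (w c : ℝ) / (b : ℝ) ^ (l + 1) := by
        funext c'
        rw [hwd c']
        push_cast
        rw [pow_succ]
        field_simp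
        ring
      rw [e1]
      field_simp
      ring

end

theorem st_AUT : ST_AUT := by
  intro m b r L K R a hm hb hL hR hK hKr hSt hFew
  classical
  have hB0 : (0 : ℝ) < (b : ℝ) ^ L := aut_bpos hb L
  have hB2n : 2 ≤ b ^ L := by
    calc 2 ≤ b := hb
      _ = b ^ 1 := (pow_one b).symm
      _ ≤ b ^ L := Nat.pow_le_pow_right (by omega) hL
  have hB2 : (2 : ℝ) ≤ (b : ℝ) ^ L := by exact_mod_cast hB2n
  have hB2z : (2 : ℤ) ≤ (b : ℤ) ^ L := by exact_mod_cast hB2n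
  choose! D hD using fun (n : ℕ) (i : Fin m → ℤ) (hi : i ∈ grid m (b ^ n)) =>
    aut_step (K := K) (L := L) hb hK hKr hFew n i hi
  set I : ℕ → Fin m → ℤ := fun j => Nat.rec (fun _ => 0)
    (fun j i => fun c => (b : ℤ) ^ L * i c + D (L * j) i ⟨0, hK⟩ c) j with hI
  have hI0 : I 0 = fun _ => 0 := rfl
  have hIs : ∀ j, I (j + 1) = fun c => (b : ℤ) ^ L * I j c + D (L * j) (I j) ⟨0, hK⟩ c :=
    fun j => rfl
  have hDg : ∀ n i, i ∈ grid m (b ^ n) → ∀ s, D n i s ∈ grid m (b ^ L) := by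
    intro n i hi s c
    obtain ⟨h1, h2⟩ := (hD n i hi).1 s c
    refine ⟨h1, ?_⟩
    push_cast
    linarith
  have hIg : ∀ j, I j ∈ grid m (b ^ (L * j)) := by
    intro j
    induction j with
    | zero =>
      intro c
      rw [hI0]
      simp
    | succ j ih =>
      rw [hIs, Nat.mul_succ]
      exact aut_grid ih (hDg _ _ ih _)
  set σ : Sys m (Fin K) :=
    { dg := fun j => D (L * j) (I j)
      ph := fun j s c => (b : ℝ) ^ L *
        pat a b (L * j) (I j) (fun c' => (D (L * j) (I j) s c' : ℝ) / (b : ℝ) ^ L) c } with hσ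
  have hdg : ∀ j s c, 0 ≤ σ.dg j s c ∧ σ.dg j s c < (b : ℤ) ^ L - 1 :=
    fun j s c => (hD (L * j) (I j) (hIg j)).1 s c
  have hdg2 : ∀ j s c, 0 ≤ σ.dg j s c ∧ (σ.dg j s c : ℝ) ≤ (b : ℝ) ^ L - 2 := by
    intro j s c
    obtain ⟨h1, h2⟩ := hdg j s c
    refine ⟨h1, ?_⟩
    have h3 : σ.dg j s c ≤ (b : ℤ) ^ L - 2 := by linarith [Int.add_one_le_iff.2 h2]
    exact_mod_cast h3
  have hph : ∀ j s c, |σ.ph j s c| ≤ (b : ℝ) ^ L * R := by
    intro j s c
    change |(b : ℝ) ^ L * pat a b (L * j) (I j)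
      (fun c' => (D (L * j) (I j) s c' : ℝ) / (b : ℝ) ^ L) c| ≤ _
    rw [abs_mul, abs_of_pos hB0]
    exact mul_le_mul_of_nonneg_left
      (hSt (L * j) (I j) (hIg j) _ (aut_cube' hb (hDg _ _ (hIg j) s)) c) hB0.le
  -- the cubes of a word
  set J : (ℕ → Fin K) → ℕ → Fin m → ℤ := fun ω N => Nat.rec (fun _ => 0)
    (fun j i => fun c => (b : ℤ) ^ L * i c + σ.dg j (ω j) c) N with hJ
  have hJs : ∀ ω N, J ω (N + 1) = fun c => (b : ℤ) ^ L * J ω N c + σ.dg N (ω N) c :=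
    fun ω N => rfl
  have hJg : ∀ ω N, J ω N ∈ grid m (b ^ (L * N)) ∧
      pat a b (L * N) (J ω N) = pat a b (L * N) (I N) := by
    intro ω N
    induction N with
    | zero => exact ⟨hIg 0, rfl⟩
    | succ N ih =>
      rw [hJs, hIs, Nat.mul_succ]
      refine ⟨aut_grid ih.1 (hDg _ _ (hIg N) _), ?_⟩
      rw [aut_rel_fun a (L * N) L hb ih.2 (hDg _ _ (hIg N) (ω N))]
      exact (hD (L * N) (I N) (hIg N)).2.2 (ω N) ⟨0, hK⟩
  have hpos : ∀ ω N c, a (fun c' => (J ω N c' : ℝ) / ((b : ℝ) ^ L) ^ N) c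
      = a 0 c + ∑ j ∈ range N, σ.ph j (ω j) c / ((b : ℝ) ^ L) ^ (j + 1) := by
    intro ω N c
    induction N with
    | zero =>
      have : (fun c' => (J ω 0 c' : ℝ) / ((b : ℝ) ^ L) ^ 0) = 0 := by
        funext c'
        change (((0 : ℤ)) : ℝ) / ((b : ℝ) ^ L) ^ 0 = 0
        simp
      rw [this]
      simp
    | succ N ih =>
      rw [Finset.sum_range_succ, ← add_assoc, ← ih]
      have h1 : σ.ph N (ω N) c = (b : ℝ) ^ L * pat a b (L * N) (J ω N)
          (fun c' => (σ.dg N (ω N) c' : ℝ) / (b : ℝ) ^ L) c := by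
        rw [(hJg ω N).2]
      rw [h1, aut_pat a b (L * N) _ (aut_cube' hb (hDg _ _ (hIg N) (ω N)))]
      have e1 : (fun c' => (J ω (N + 1) c' : ℝ) / ((b : ℝ) ^ L) ^ (N + 1)) =
          fun c' => ((σ.dg N (ω N) c' : ℝ) / (b : ℝ) ^ L + J ω N c') / (b : ℝ) ^ (L * N) := by
        funext c'
        rw [hJs]
        push_cast
        rw [pow_mul, pow_succ]
        field_simp
        ring
      rw [e1, pow_mul, pow_succ]
      field_simp
      ring
  have hdir : ∀ ω N c, (J ω N c : ℝ) / ((b : ℝ) ^ L) ^ N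
      = ∑ j ∈ range N, (σ.dg j (ω j) c : ℝ) / ((b : ℝ) ^ L) ^ (j + 1) := by
    intro ω N c
    induction N with
    | zero =>
      change (((0 : ℤ)) : ℝ) / ((b : ℝ) ^ L) ^ 0 = _
      simp
    | succ N ih =>
      rw [Finset.sum_range_succ, ← ih, hJs]
      push_cast
      rw [pow_succ]
      field_simp
  have hJc : ∀ ω N, (fun c' => (J ω N c' : ℝ) / ((b : ℝ) ^ L) ^ N) ∈ cube m := by
    intro ω N
    have := aut_cube' hb (hJg ω N).1
    rwa [pow_mul] at this
  refine ⟨σ, ⟨?_, ?_, hph⟩, ?_, ?_, ?_⟩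
  · intro j s c
    obtain ⟨h1, h2⟩ := hdg j s c
    refine ⟨h1, ?_⟩
    push_cast
    linarith
  · intro j
    exact (hD (L * j) (I j) (hIg j)).2.1
  · intro N u
    set ω : ℕ → Fin K := fun j => if h : j < N then u ⟨j, h⟩ else ⟨0, hK⟩ with hω
    refine ⟨_, hJc ω N, ?_⟩
    intro t c
    rw [hpos, hdir, add_assoc]
    congr 1
    unfold Sys.P
    rw [Finset.mul_sum, ← Finset.sum_add_distrib, Finset.sum_div, Finset.sum_range]
    refine Finset.sum_congr rfl ?_
    intro q _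
    have h1 : ω q = u q := by
      rw [hω]
      simp only
      rw [dif_pos q.2]
    rw [h1, Nat.zero_add]
    push_cast
    have h2 : ((b : ℝ) ^ L) ^ N = ((b : ℝ) ^ L) ^ (N - 1 - (q : ℕ)) * ((b : ℝ) ^ L) ^ ((q : ℕ) + 1) := by
      rw [← pow_add]
      congr 1
      have := q.2
      omega
    rw [h2]
    field_simp
  · intro ω
    have hd : ∀ c j, 0 ≤ σ.dg j (ω j) c ∧ (σ.dg j (ω j) c : ℝ) ≤ (b : ℝ) ^ L - 2 :=
      fun c j => hdg2 j (ω j) c
    set x : Fin m → ℝ := fun c => ∑' j, (σ.dg j (ω j) c : ℝ) / ((b : ℝ) ^ L) ^ (j + 1) with hx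
    have hxc : x ∈ cube m := fun c => ⟨(aut_tail hB2 _ (hd c)).2.1, (aut_tail hB2 _ (hd c)).2.2⟩
    refine ⟨x, hxc, ?_⟩
    intro t c
    have hsd := (aut_tail hB2 _ (hd c)).1
    have hsp : Summable (fun j => σ.ph j (ω j) c / ((b : ℝ) ^ L) ^ (j + 1)) := by
      have hlt : 1 / (b : ℝ) ^ L < 1 := by
        rw [div_lt_one hB0]
        linarith
      refine Summable.of_norm_bounded (g := fun j : ℕ => R * (1 / (b : ℝ) ^ L) ^ j)
        ((summable_geometric_of_lt_one (by positivity) hlt).mul_left _) ?_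
      intro j
      rw [Real.norm_eq_abs, abs_div, abs_of_pos (pow_pos hB0 (j + 1)), div_le_iff₀ (by positivity)]
      refine (hph j (ω j) c).trans (le_of_eq ?_)
      rw [div_pow, one_pow, pow_succ]
      field_simp
    -- the limit of the positions
    have hlim : Filter.Tendsto (fun N => a (fun c' => (J ω N c' : ℝ) / ((b : ℝ) ^ L) ^ N) c)
        Filter.atTop (nhds (a x c)) := by
      have hbd : ∀ N, |a (fun c' => (J ω N c' : ℝ) / ((b : ℝ) ^ L) ^ N) c - a x c| ≤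
          R * (1 / (b : ℝ) ^ L) ^ N := by
        intro N
        set y : Fin m → ℝ := fun c => ∑' j, (σ.dg (j + N) (ω (j + N)) c : ℝ) /
          ((b : ℝ) ^ L) ^ (j + 1) with hy
        have hyc : y ∈ cube m := fun c =>
          ⟨(aut_tail hB2 _ (fun j => hd c (j + N))).2.1, (aut_tail hB2 _ (fun j => hd c (j + N))).2.2⟩
        have h1 := hSt (L * N) (J ω N) (hJg ω N).1 y hyc c
        rw [aut_pat a b (L * N) _ hyc] at h1
        have e1 : (fun c' => (y c' + J ω N c') / (b : ℝ) ^ (L * N)) = x := by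
          funext c'
          rw [hx]
          simp only
          rw [aut_split hB2 _ (hd c') N, ← hdir ω N c', pow_mul]
          rw [hy]
          simp only
          ring
        have hBN : (0 : ℝ) < (b : ℝ) ^ (L * N) := aut_bpos hb _
        rw [e1, abs_mul, abs_of_pos hBN, abs_sub_comm] at h1
        rw [div_pow, one_pow, ← pow_mul, mul_one_div, le_div_iff₀ hBN]
        linarith
      have hlt : 1 / (b : ℝ) ^ L < 1 := by
        rw [div_lt_one hB0]
        linarith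
      have h0 : Filter.Tendsto (fun N : ℕ => R * (1 / (b : ℝ) ^ L) ^ N) Filter.atTop (nhds 0) := by
        have := (tendsto_pow_atTop_nhds_zero_of_lt_one (by positivity) hlt).const_mul R
        rwa [mul_zero] at this
      rw [tendsto_iff_dist_tendsto_zero]
      refine squeeze_zero (fun N => dist_nonneg) ?_ h0
      intro N
      rw [Real.dist_eq]
      exact hbd N
    have hlim2 : Filter.Tendsto (fun N => a (fun c' => (J ω N c' : ℝ) / ((b : ℝ) ^ L) ^ N) c)
        Filter.atTop (nhds (a 0 c + ∑' j, σ.ph j (ω j) c / ((b : ℝ) ^ L) ^ (j + 1))) := by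
      have h1 := hsp.hasSum.tendsto_sum_nat.const_add (a 0 c)
      refine h1.congr ?_
      intro N
      exact (hpos ω N c).symm
    have hax := tendsto_nhds_unique hlim hlim2
    rw [hax]
    have h2 : ∑' j : ℕ, (σ.ph j (ω j) c + t * (σ.dg j (ω j) c : ℝ)) / ((b : ℝ) ^ L) ^ (j + 1)
        = ∑' j, σ.ph j (ω j) c / ((b : ℝ) ^ L) ^ (j + 1) + t * x c := by
      rw [hx]
      simp only
      rw [← tsum_mul_left, ← hsp.tsum_add (hsd.mul_left t)]
      apply tsum_congr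
      intro j
      ring
    rw [h2, add_assoc]
  · intro hFI
    have hfin := aut_inc hb hFI L
    have h1 : ((Set.univ : Set (Fin K)).pi fun _ => grid m (b ^ L)).Finite :=
      Set.Finite.pi' (fun _ => aut_grid_finite m _) |>.subset (fun f hf s => hf s (Set.mem_univ s))
    have h2 : {f : Fin K → Fin m → ℝ | ∀ s, f s ∈ (fun v : Fin m → ℝ => fun c => (b : ℝ) ^ L * v c) ''
      {v : Fin m → ℝ | ∃ n, ∃ i ∈ grid m (b ^ n), ∃ w ∈ grid m (b ^ L),
        v = pat a b n i (fun c => (w c : ℝ) / (b : ℝ) ^ L)}}.Finite :=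
      Set.Finite.pi' (fun _ => hfin.image _)
    refine (h1.prod h2).subset ?_
    rintro _ ⟨j, rfl⟩
    refine ⟨?_, ?_⟩
    · intro s _
      exact hDg _ _ (hIg j) s
    · intro s
      exact ⟨_, ⟨L * j, I j, hIg j, D (L * j) (I j) s, hDg _ _ (hIg j) s, rfl⟩, rfl⟩

end Pool.Agent.Helper70.DK
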