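import Pool.Agent.Helper70.DK.Defs3
import Pool.Agent.Helper8.DK.AUT

/-! # Module AUTC: digit systems from sticky maps, local pattern complexity -/

set_option autoImplicit false

namespace Pool.Agent.Helper70.DK

open Finset

theorem autc_step {m b r L K : ℕ} {a : (Fin m → ℝ) → Fin m → ℝ} (hb : 2 ≤ b)
    (hKr : K * r ≤ (b ^ L - 1) ^ m) (hF : Cplx a b L r) (n : ℕ) (i : Fin m → ℤ)
    (hi : i ∈ grid m (b ^ n)) :
    ∃ d : Fin K → Fin m → ℤ, (∀ s c, 0 ≤ d s c ∧ d s c < (b : ℤ) ^ L - 1) ∧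
      Function.Injective d ∧ ∀ s s', pat a b (n + L) (fun c => (b : ℤ) ^ L * i c + d s c)
        = pat a b (n + L) (fun c => (b : ℤ) ^ L * i c + d s' c) := by
  classical
  have hfin : ((fun w : Fin m → ℤ => pat a b (n + L) (fun c => (b : ℤ) ^ L * i c + w c)) ''
      grid m (b ^ L)).Finite := (aut_grid_finite m _).image _
  set T := hfin.toFinset with hT
  have hTc : T.card ≤ r := by
    have := hF n i hi
    rwa [Set.ncard_eq_toFinset_card _ hfin] at this
  have hB1 : 1 ≤ b ^ L := Nat.one_le_pow _ _ (by omega)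
  have hWg : ∀ w ∈ aut_W m (b ^ L - 1), w ∈ grid m (b ^ L) := by
    intro w hw c
    obtain ⟨h1, h2⟩ := aut_W_mem hw c
    refine ⟨h1, ?_⟩
    push_cast [hB1] at h2 ⊢
    linarith
  set f : (Fin m → ℤ) → ((Fin m → ℝ) → Fin m → ℝ) :=
    fun w => pat a b (n + L) (fun c => (b : ℤ) ^ L * i c + w c) with hf
  have hmaps : ∀ w ∈ aut_W m (b ^ L - 1), f w ∈ T := by
    intro w hw
    rw [hT, Set.Finite.mem_toFinset]
    exact ⟨w, hWg w hw, rfl⟩
  have hTne : T.Nonempty := by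
    have h0 : (fun _ => 0 : Fin m → ℤ) ∈ grid m (b ^ L) := by
      intro c
      refine ⟨le_refl _, ?_⟩
      have h9 : 0 < b ^ L := by positivity
      change (0 : ℤ) < ((b ^ L : ℕ) : ℤ)
      exact_mod_cast h9
    refine ⟨f (fun _ => 0), ?_⟩
    rw [hT, Set.Finite.mem_toFinset]
    exact ⟨_, h0, rfl⟩
  have hmul : T.card * K ≤ (aut_W m (b ^ L - 1)).card := by
    rw [aut_W_card]
    calc T.card * K ≤ r * K := Nat.mul_le_mul_right _ hTc
      _ = K * r := Nat.mul_comm _ _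
      _ ≤ _ := hKr
  obtain ⟨p, -, hp⟩ := Finset.exists_le_card_fiber_of_mul_le_card_of_maps_to hmaps hTne hmul
  obtain ⟨S, hS1, hS2⟩ := Finset.exists_subset_card_eq hp
  set e := S.equivFinOfCardEq hS2 with he
  refine ⟨fun s => (e.symm s).1, ?_, ?_, ?_⟩
  · intro s c
    have h1 := hS1 (e.symm s).2
    rw [Finset.mem_filter] at h1
    have h2 := aut_W_mem h1.1 c
    push_cast [hB1] at h2
    exact h2
  · intro s s' h
    exact e.symm.injective (Subtype.ext h)
  · intro s s'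
    have h1 := hS1 (e.symm s).2
    have h2 := hS1 (e.symm s').2
    rw [Finset.mem_filter] at h1 h2
    exact h1.2.trans h2.2.symm

theorem st_AUTC : ST_AUTC := by
  intro m b r L K R a hm hb hL hR hK hKr hSt hFew
  classical
  have hB0 : (0 : ℝ) < (b : ℝ) ^ L := aut_bpos hb L
  have hB2n : 2 ≤ b ^ L := by
    calc 2 ≤ b := hb
      _ = b ^ 1 := (pow_one b).symm
      _ ≤ b ^ L := Nat.pow_le_pow_right (by omega) hL
  have hB2 : (2 : ℝ) ≤ (b : ℝ) ^ L := by exact_mod_cast hB2n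
  have hB2z : (2 : ℤ) ≤ (b : ℤ) ^ L := by exact_mod_cast hB2n
  choose! D hD using fun (n : ℕ) (i : Fin m → ℤ) (hi : i ∈ grid m (b ^ n)) =>
    autc_step (K := K) (L := L) hb hKr hFew n i hi
  set I : ℕ → Fin m → ℤ := fun j => Nat.rec (fun _ => 0)
    (fun j i => fun c => (b : ℤ) ^ L * i c + D (L * j) i ⟨0, hK⟩ c) j with hI
  have hI0 : I 0 = fun _ => 0 := rfl
  have hIs : ∀ j, I (j + 1) = fun c => (b : ℤ) ^ L * I j c + D (L * j) (I j) ⟨0, hK⟩ c :=
    fun j => rfl
  have hDg : ∀ n i, i ∈ grid m (b ^ n) → ∀ s, D n i s ∈ grid m (b ^ L) := by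
    intro n i hi s c
    obtain ⟨h1, h2⟩ := (hD n i hi).1 s c
    refine ⟨h1, ?_⟩
    push_cast
    linarith
  have hIg : ∀ j, I j ∈ grid m (b ^ (L * j)) := by
    intro j
    induction j with
    | zero =>
      intro c
      rw [hI0]
      simp
    | succ j ih =>
      rw [hIs, Nat.mul_succ]
      exact aut_grid ih (hDg _ _ ih _)
  set σ : Sys m (Fin K) :=
    { dg := fun j => D (L * j) (I j)
      ph := fun j s c => (b : ℝ) ^ L *
        pat a b (L * j) (I j) (fun c' => (D (L * j) (I j) s c' : ℝ) / (b : ℝ) ^ L) c } with hσ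
  have hdg : ∀ j s c, 0 ≤ σ.dg j s c ∧ σ.dg j s c < (b : ℤ) ^ L - 1 :=
    fun j s c => (hD (L * j) (I j) (hIg j)).1 s c
  have hdg2 : ∀ j s c, 0 ≤ σ.dg j s c ∧ (σ.dg j s c : ℝ) ≤ (b : ℝ) ^ L - 2 := by
    intro j s c
    obtain ⟨h1, h2⟩ := hdg j s c
    refine ⟨h1, ?_⟩
    have h3 : σ.dg j s c ≤ (b : ℤ) ^ L - 2 := by linarith [Int.add_one_le_iff.2 h2]
    exact_mod_cast h3
  have hph : ∀ j s c, |σ.ph j s c| ≤ (b : ℝ) ^ L * R := by
    intro j s c
    change |(b : ℝ) ^ L * pat a b (L * j) (I j)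
      (fun c' => (D (L * j) (I j) s c' : ℝ) / (b : ℝ) ^ L) c| ≤ _
    rw [abs_mul, abs_of_pos hB0]
    exact mul_le_mul_of_nonneg_left
      (hSt (L * j) (I j) (hIg j) _ (aut_cube' hb (hDg _ _ (hIg j) s)) c) hB0.le
  -- the cubes of a word
  set J : (ℕ → Fin K) → ℕ → Fin m → ℤ := fun ω N => Nat.rec (fun _ => 0)
    (fun j i => fun c => (b : ℤ) ^ L * i c + σ.dg j (ω j) c) N with hJ
  have hJs : ∀ ω N, J ω (N + 1) = fun c => (b : ℤ) ^ L * J ω N c + σ.dg N (ω N) c :=
    fun ω N => rfl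
  have hJg : ∀ ω N, J ω N ∈ grid m (b ^ (L * N)) ∧
      pat a b (L * N) (J ω N) = pat a b (L * N) (I N) := by
    intro ω N
    induction N with
    | zero => exact ⟨hIg 0, rfl⟩
    | succ N ih =>
      rw [hJs, hIs, Nat.mul_succ]
      refine ⟨aut_grid ih.1 (hDg _ _ (hIg N) _), ?_⟩
      rw [aut_rel_fun a (L * N) L hb ih.2 (hDg _ _ (hIg N) (ω N))]
      exact (hD (L * N) (I N) (hIg N)).2.2 (ω N) ⟨0, hK⟩
  have hpos : ∀ ω N c, a (fun c' => (J ω N c' : ℝ) / ((b : ℝ) ^ L) ^ N) c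
      = a 0 c + ∑ j ∈ range N, σ.ph j (ω j) c / ((b : ℝ) ^ L) ^ (j + 1) := by
    intro ω N c
    induction N with
    | zero =>
      have : (fun c' => (J ω 0 c' : ℝ) / ((b : ℝ) ^ L) ^ 0) = 0 := by
        funext c'
        change (((0 : ℤ)) : ℝ) / ((b : ℝ) ^ L) ^ 0 = 0
        simp
      rw [this]
      simp
    | succ N ih =>
      rw [Finset.sum_range_succ, ← add_assoc, ← ih]
      have h1 : σ.ph N (ω N) c = (b : ℝ) ^ L * pat a b (L * N) (J ω N)
          (fun c' => (σ.dg N (ω N) c' : ℝ) / (b : ℝ) ^ L) c := by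
        rw [(hJg ω N).2]
      rw [h1, aut_pat a b (L * N) _ (aut_cube' hb (hDg _ _ (hIg N) (ω N)))]
      have e1 : (fun c' => (J ω (N + 1) c' : ℝ) / ((b : ℝ) ^ L) ^ (N + 1)) =
          fun c' => ((σ.dg N (ω N) c' : ℝ) / (b : ℝ) ^ L + J ω N c') / (b : ℝ) ^ (L * N) := by
        funext c'
        rw [hJs]
        push_cast
        rw [pow_mul, pow_succ]
        field_simp
        ring
      rw [e1, pow_mul, pow_succ]
      field_simp
      ring
  have hdir : ∀ ω N c, (J ω N c : ℝ) / ((b : ℝ) ^ L) ^ N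
      = ∑ j ∈ range N, (σ.dg j (ω j) c : ℝ) / ((b : ℝ) ^ L) ^ (j + 1) := by
    intro ω N c
    induction N with
    | zero =>
      change (((0 : ℤ)) : ℝ) / ((b : ℝ) ^ L) ^ 0 = _
      simp
    | succ N ih =>
      rw [Finset.sum_range_succ, ← ih, hJs]
      push_cast
      rw [pow_succ]
      field_simp
  have hJc : ∀ ω N, (fun c' => (J ω N c' : ℝ) / ((b : ℝ) ^ L) ^ N) ∈ cube m := by
    intro ω N
    have := aut_cube' hb (hJg ω N).1
    rwa [pow_mul] at this
  refine ⟨σ, ⟨?_, ?_, hph⟩, ?_, ?_, ?_⟩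
  · intro j s c
    obtain ⟨h1, h2⟩ := hdg j s c
    refine ⟨h1, ?_⟩
    push_cast
    linarith
  · intro j
    exact (hD (L * j) (I j) (hIg j)).2.1
  · intro N u
    set ω : ℕ → Fin K := fun j => if h : j < N then u ⟨j, h⟩ else ⟨0, hK⟩ with hω
    refine ⟨_, hJc ω N, ?_⟩
    intro t c
    rw [hpos, hdir, add_assoc]
    congr 1
    unfold Sys.P
    rw [Finset.mul_sum, ← Finset.sum_add_distrib, Finset.sum_div, Finset.sum_range]
    refine Finset.sum_congr rfl ?_
    intro q _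
    have h1 : ω q = u q := by
      rw [hω]
      simp only
      rw [dif_pos q.2]
    rw [h1, Nat.zero_add]
    push_cast
    have h2 : ((b : ℝ) ^ L) ^ N = ((b : ℝ) ^ L) ^ (N - 1 - (q : ℕ)) * ((b : ℝ) ^ L) ^ ((q : ℕ) + 1) := by
      rw [← pow_add]
      congr 1
      have := q.2
      omega
    rw [h2]
    field_simp
  · intro ω
    have hd : ∀ c j, 0 ≤ σ.dg j (ω j) c ∧ (σ.dg j (ω j) c : ℝ) ≤ (b : ℝ) ^ L - 2 :=
      fun c j => hdg2 j (ω j) c
    set x : Fin m → ℝ := fun c => ∑' j, (σ.dg j (ω j) c : ℝ) / ((b : ℝ) ^ L) ^ (j + 1) with hx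
    have hxc : x ∈ cube m := fun c => ⟨(aut_tail hB2 _ (hd c)).2.1, (aut_tail hB2 _ (hd c)).2.2⟩
    refine ⟨x, hxc, ?_⟩
    intro t c
    have hsd := (aut_tail hB2 _ (hd c)).1
    have hsp : Summable (fun j => σ.ph j (ω j) c / ((b : ℝ) ^ L) ^ (j + 1)) := by
      have hlt : 1 / (b : ℝ) ^ L < 1 := by
        rw [div_lt_one hB0]
        linarith
      refine Summable.of_norm_bounded (g := fun j : ℕ => R * (1 / (b : ℝ) ^ L) ^ j)
        ((summable_geometric_of_lt_one (by positivity) hlt).mul_left _) ?_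
      intro j
      rw [Real.norm_eq_abs, abs_div, abs_of_pos (pow_pos hB0 (j + 1)), div_le_iff₀ (by positivity)]
      refine (hph j (ω j) c).trans (le_of_eq ?_)
      rw [div_pow, one_pow, pow_succ]
      field_simp
    -- the limit of the positions
    have hlim : Filter.Tendsto (fun N => a (fun c' => (J ω N c' : ℝ) / ((b : ℝ) ^ L) ^ N) c)
        Filter.atTop (nhds (a x c)) := by
      have hbd : ∀ N, |a (fun c' => (J ω N c' : ℝ) / ((b : ℝ) ^ L) ^ N) c - a x c| ≤
          R * (1 / (b : ℝ) ^ L) ^ N := by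
        intro N
        set y : Fin m → ℝ := fun c => ∑' j, (σ.dg (j + N) (ω (j + N)) c : ℝ) /
          ((b : ℝ) ^ L) ^ (j + 1) with hy
        have hyc : y ∈ cube m := fun c =>
          ⟨(aut_tail hB2 _ (fun j => hd c (j + N))).2.1, (aut_tail hB2 _ (fun j => hd c (j + N))).2.2⟩
        have h1 := hSt (L * N) (J ω N) (hJg ω N).1 y hyc c
        rw [aut_pat a b (L * N) _ hyc] at h1
        have e1 : (fun c' => (y c' + J ω N c') / (b : ℝ) ^ (L * N)) = x := by
          funext c'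
          rw [hx]
          simp only
          rw [aut_split hB2 _ (hd c') N, ← hdir ω N c', pow_mul]
          rw [hy]
          simp only
          ring
        have hBN : (0 : ℝ) < (b : ℝ) ^ (L * N) := aut_bpos hb _
        rw [e1, abs_mul, abs_of_pos hBN, abs_sub_comm] at h1
        rw [div_pow, one_pow, ← pow_mul, mul_one_div, le_div_iff₀ hBN]
        linarith
      have hlt : 1 / (b : ℝ) ^ L < 1 := by
        rw [div_lt_one hB0]
        linarith
      have h0 : Filter.Tendsto (fun N : ℕ => R * (1 / (b : ℝ) ^ L) ^ N) Filter.atTop (nhds 0) := by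
        have := (tendsto_pow_atTop_nhds_zero_of_lt_one (by positivity) hlt).const_mul R
        rwa [mul_zero] at this
      rw [tendsto_iff_dist_tendsto_zero]
      refine squeeze_zero (fun N => dist_nonneg) ?_ h0
      intro N
      rw [Real.dist_eq]
      exact hbd N
    have hlim2 : Filter.Tendsto (fun N => a (fun c' => (J ω N c' : ℝ) / ((b : ℝ) ^ L) ^ N) c)
        Filter.atTop (nhds (a 0 c + ∑' j, σ.ph j (ω j) c / ((b : ℝ) ^ L) ^ (j + 1))) := by
      have h1 := hsp.hasSum.tendsto_sum_nat.const_add (a 0 c)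
      refine h1.congr ?_
      intro N
      exact (hpos ω N c).symm
    have hax := tendsto_nhds_unique hlim hlim2
    rw [hax]
    have h2 : ∑' j : ℕ, (σ.ph j (ω j) c + t * (σ.dg j (ω j) c : ℝ)) / ((b : ℝ) ^ L) ^ (j + 1)
        = ∑' j, σ.ph j (ω j) c / ((b : ℝ) ^ L) ^ (j + 1) + t * x c := by
      rw [hx]
      simp only
      rw [← tsum_mul_left, ← hsp.tsum_add (hsd.mul_left t)]
      apply tsum_congr
      intro j
      ring
    rw [h2, add_assoc]
  · intro hFI
    have hfin := aut_inc hb hFI L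
    have h1 : ((Set.univ : Set (Fin K)).pi fun _ => grid m (b ^ L)).Finite :=
      Set.Finite.pi' (fun _ => aut_grid_finite m _) |>.subset (fun f hf s => hf s (Set.mem_univ s))
    have h2 : {f : Fin K → Fin m → ℝ | ∀ s, f s ∈ (fun v : Fin m → ℝ => fun c => (b : ℝ) ^ L * v c) ''
      {v : Fin m → ℝ | ∃ n, ∃ i ∈ grid m (b ^ n), ∃ w ∈ grid m (b ^ L),
        v = pat a b n i (fun c => (w c : ℝ) / (b : ℝ) ^ L)}}.Finite :=
      Set.Finite.pi' (fun _ => hfin.image _)
    refine (h1.prod h2).subset ?_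
    rintro _ ⟨j, rfl⟩
    refine ⟨?_, ?_⟩
    · intro s _
      exact hDg _ _ (hIg j) s
    · intro s
      exact ⟨_, ⟨L * j, I j, hIg j, D (L * j) (I j) s, hDg _ _ (hIg j) s, rfl⟩, rfl⟩

end Pool.Agent.Helper70.DK
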